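import Pool.Agent.Helper76.PP.Goals3

/-!
# Project PP, part B, packet PP-BCRT
-/

namespace Pool.Agent.Helper56.PP

open NumberField Polynomial Module IsDedekindDomain
open Pool.Agent.Helper51.RP Pool.Agent.Helper42.RD Pool.Agent.Helper42.PP
open Pool.Agent.Helper76.PP (mD)

theorem b_crt (h1 : Pool.Agent.Helper42.PP.P_UPR) (h2 : Pool.Agent.Helper76.PP.B_IDN) :
    Pool.Agent.Helper76.PP.B_CRT := by
  classical
  intro p _ K F _ _ _ _ _ _ S D hS v hvS hvD c hc w₀ hw₀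
  obtain ⟨-, hB, hD⟩ := h2 p K F S hS
  obtain ⟨hm0, -, -, -, -⟩ := hB v
  have hcop := hD v D hvS hvD
  have hfin : {w : HeightOneSpectrum (𝓞 F) | Above w v}.Finite := by
    refine (h1 p K F {v}).1.subset ?_
    intro w hw
    exact ⟨v, by simp, hw⟩
  set A : Finset (HeightOneSpectrum (𝓞 F)) := hfin.toFinset with hA
  have hmem : ∀ w, w ∈ A ↔ Above w v := fun w ↦ by simp [hA]
  obtain ⟨x, hx⟩ := IsDedekindDomain.exists_forall_sub_mem_ideal (s := A)
    (fun w : HeightOneSpectrum (𝓞 F) ↦ w.asIdeal) (fun _ ↦ 1)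
    (fun w _ ↦ (w.prime))
    (fun w _ w' _ hne h ↦ hne (HeightOneSpectrum.ext h))
    (fun w ↦ if w.1 = w₀ then algebraMap (𝓞 K) (𝓞 F) c else 1)
  have hxw₀ : x - algebraMap (𝓞 K) (𝓞 F) c ∈ w₀.asIdeal := by
    have := hx w₀ ((hmem w₀).2 hw₀)
    simpa using this
  have hxw : ∀ w : HeightOneSpectrum (𝓞 F), Above w v → w ≠ w₀ → x - 1 ∈ w.asIdeal := by
    intro w hw hne
    have := hx w ((hmem w).2 hw)
    simpa [hne] using this
  set m : Ideal (𝓞 F) := mD p F S D with hm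
  have hI : (∏ w ∈ A, w.asIdeal) ⊔ m = ⊤ :=
    Ideal.prod_sup_eq_top fun w hw ↦ hcop w ((hmem w).1 hw)
  obtain ⟨i, hi, m', hm', him⟩ := Submodule.mem_sup.1 ((Ideal.eq_top_iff_one _).1 hI)
  have hiw : ∀ w : HeightOneSpectrum (𝓞 F), Above w v → i ∈ w.asIdeal := by
    intro w hw
    exact (Ideal.prod_le_inf.trans (Finset.inf_le ((hmem w).2 hw))) hi
  set α : 𝓞 F := x * m' + i with hα
  have e1 : α - 1 = (x - 1) * m' := by
    rw [hα]
    linear_combination him
  have e2 : α - x = (1 - x) * i := by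
    rw [hα]
    linear_combination x * him
  have hα1 : α - 1 ∈ m := by
    rw [e1]
    exact Ideal.mul_mem_left _ _ hm'
  have hαx : ∀ w : HeightOneSpectrum (𝓞 F), Above w v → α - x ∈ w.asIdeal := by
    intro w hw
    rw [e2]
    exact Ideal.mul_mem_left _ _ (hiw w hw)
  have hα0 : α - algebraMap (𝓞 K) (𝓞 F) c ∈ w₀.asIdeal := by
    have := add_mem (hαx w₀ hw₀) hxw₀
    simpa using this
  have hαw : ∀ w : HeightOneSpectrum (𝓞 F), Above w v → w ≠ w₀ → α - 1 ∈ w.asIdeal := by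
    intro w hw hne
    have := add_mem (hαx w hw) (hxw w hw hne)
    simpa using this
  have hnot : ∀ w : HeightOneSpectrum (𝓞 F), Above w v → α ∉ w.asIdeal := by
    intro w hw hmem'
    by_cases hne : w = w₀
    · subst hne
      have h3 : algebraMap (𝓞 K) (𝓞 F) c ∈ w.asIdeal := by
        have := sub_mem hmem' hα0
        simpa using this
      apply hc
      rw [← show w.asIdeal.comap (algebraMap (𝓞 K) (𝓞 F)) = v.asIdeal from hw]
      exact h3
    · have h3 : (1 : 𝓞 F) ∈ w.asIdeal := by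
        have := sub_mem hmem' (hαw w hw hne)
        simpa using this
      exact w.isPrime.ne_top ((Ideal.eq_top_iff_one _).2 h3)
  refine ⟨α, ?_, hα1, hα0, hαw, ?_, ?_⟩
  · intro h0
    exact hnot w₀ hw₀ (h0 ▸ w₀.asIdeal.zero_mem)
  · by_contra hne
    obtain ⟨P, hP, hle⟩ := Ideal.exists_le_maximal _ hne
    have hP1 : v.asIdeal.map (algebraMap (𝓞 K) (𝓞 F)) ≤ P := le_sup_right.trans hle
    have hP0 : P ≠ ⊥ := by
      rintro rfl
      exact hm0 (le_bot_iff.1 hP1)
    let w : HeightOneSpectrum (𝓞 F) := ⟨P, hP.isPrime, hP0⟩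
    have hw : Above w v := by
      show P.comap (algebraMap (𝓞 K) (𝓞 F)) = v.asIdeal
      have h3 : v.asIdeal ≤ P.comap (algebraMap (𝓞 K) (𝓞 F)) := Ideal.map_le_iff_le_comap.1 hP1
      have h4 : P.comap (algebraMap (𝓞 K) (𝓞 F)) ≠ ⊤ := Ideal.comap_ne_top _ hP.ne_top
      exact (v.isMaximal.eq_of_le h4 h3).symm
    exact hnot w hw (hle (Ideal.mem_sup_left (Ideal.mem_span_singleton_self α)))
  · rw [Ideal.eq_top_iff_one]
    have h3 : α ∈ Ideal.span {α} ⊔ m := Ideal.mem_sup_left (Ideal.mem_span_singleton_self α)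
    have h4 : α - 1 ∈ Ideal.span {α} ⊔ m := Ideal.mem_sup_right hα1
    have := sub_mem h3 h4
    simpa using this

end Pool.Agent.Helper56.PP
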